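import Pool.Agent.Work.MP_64ea0f_cs.InterfaceC

set_option autoImplicit false

namespace Pool.CS

namespace Per

section
variable {Λ : Type} {G : SimpleGraph Λ} (H : Per G)

theorem s_add_mul_nat (i : ℤ) (n : ℕ) : H.s (i + H.k * (n : ℤ)) = H.s i := by
  induction n with
  | zero => simp
  | succ n ih =>
    have h : i + H.k * ((n + 1 : ℕ) : ℤ) = (i + H.k * (n : ℤ)) + H.k := by
      push_cast
      ring
    rw [h, H.per, ih]

theorem s_add_mul (i n : ℤ) : H.s (i + H.k * n) = H.s i := by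
  obtain ⟨m, rfl | rfl⟩ := Int.eq_nat_or_neg n
  · exact H.s_add_mul_nat i m
  · have h := H.s_add_mul_nat (i + H.k * (-(m : ℤ))) m
    have h2 : i + H.k * (-(m : ℤ)) + H.k * (m : ℤ) = i := by ring
    rw [h2] at h
    exact h.symm

theorem s_sub_mul (i n : ℤ) : H.s (i - H.k * n) = H.s i := by
  have h := H.s_add_mul i (-n)
  have h2 : i + H.k * (-n) = i - H.k * n := by ring
  rw [h2] at h
  exact h

theorem iso_of_dep {i j : ℤ} (h : dep G (H.s i) (H.s j)) (hi : H.iso (H.s i)) :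
    H.iso (H.s j) := by
  rcases h with h | h
  · rw [← h]
    exact hi
  · by_cases hij : H.s j = H.s i
    · rw [hij]
      exact hi
    · exact (h (hi j hij)).elim

theorem iso_iff_of_dep {i j : ℤ} (h : dep G (H.s i) (H.s j)) :
    H.iso (H.s i) ↔ H.iso (H.s j) :=
  ⟨H.iso_of_dep h, H.iso_of_dep (dep_symm h)⟩

theorem LC_zero : H.LC 0 :=
  ⟨fun _ _ _ => rfl, fun _ _ => rfl, fun _ _ => rfl⟩

theorem one_of_not_iso (i : ℤ) (h : ¬ H.iso (H.s i)) : H.one (H.s i) = 1 := by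
  unfold one
  exact if_pos ⟨⟨i, rfl⟩, h⟩

theorem LC_one : H.LC H.one := by
  refine ⟨fun i j hd => ?_, fun t ht => ?_, fun t ht => ?_⟩
  · by_cases hi : H.iso (H.s i)
    · have hj := (H.iso_iff_of_dep hd).1 hi
      unfold one
      rw [if_neg (fun h => h.2 hi), if_neg (fun h => h.2 hj)]
    · have hj : ¬ H.iso (H.s j) := fun h => hi ((H.iso_iff_of_dep hd).2 h)
      rw [H.one_of_not_iso i hi, H.one_of_not_iso j hj]
  · unfold one
    exact if_neg (fun h => h.2 ht)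
  · unfold one
    exact if_neg (fun h => ht h.1)

theorem LC_add {f g : Λ → ℤ} (hf : H.LC f) (hg : H.LC g) : H.LC (f + g) := by
  refine ⟨fun i j hd => ?_, fun t ht => ?_, fun t ht => ?_⟩
  · rw [Pi.add_apply, Pi.add_apply, hf.1 i j hd, hg.1 i j hd]
  · rw [Pi.add_apply, hf.2.1 t ht, hg.2.1 t ht, add_zero]
  · rw [Pi.add_apply, hf.2.2 t ht, hg.2.2 t ht, add_zero]

theorem LC_neg {f : Λ → ℤ} (hf : H.LC f) : H.LC (-f) := by
  refine ⟨fun i j hd => ?_, fun t ht => ?_, fun t ht => ?_⟩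
  · rw [Pi.neg_apply, Pi.neg_apply, hf.1 i j hd]
  · rw [Pi.neg_apply, hf.2.1 t ht, neg_zero]
  · rw [Pi.neg_apply, hf.2.2 t ht, neg_zero]

theorem LC_nsmul (n : ℕ) {f : Λ → ℤ} (hf : H.LC f) : H.LC (n • f) := by
  refine ⟨fun i j hd => ?_, fun t ht => ?_, fun t ht => ?_⟩
  · rw [Pi.smul_apply, Pi.smul_apply, hf.1 i j hd]
  · rw [Pi.smul_apply, hf.2.1 t ht, smul_zero]
  · rw [Pi.smul_apply, hf.2.2 t ht, smul_zero]

theorem mem_sh {f : Λ → ℤ} {D : Set ℤ} {i : ℤ} : i ∈ H.sh f D ↔ i - H.k * f (H.s i) ∈ D :=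
  Iff.rfl

theorem sh_sh (f g : Λ → ℤ) (D : Set ℤ) : H.sh f (H.sh g D) = H.sh (f + g) D := by
  ext i
  rw [mem_sh, mem_sh, mem_sh, H.s_sub_mul, Pi.add_apply]
  have h : i - H.k * f (H.s i) - H.k * g (H.s i) = i - H.k * (f (H.s i) + g (H.s i)) := by ring
  rw [h]

theorem sh_zero (D : Set ℤ) : H.sh 0 D = D := by
  ext i
  rw [mem_sh, Pi.zero_apply, mul_zero, sub_zero]

theorem tr_eq_sh_one (h : ∀ i, ¬ H.iso (H.s i)) (D : Set ℤ) : H.tr D = H.sh H.one D := by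
  ext i
  rw [mem_sh, H.one_of_not_iso i (h i), mul_one]
  constructor
  · rintro (h1 | h1 | h1)
    · exact h1.2
    · exact (h i h1.1).elim
    · exact (h i h1.1).elim
  · intro h1
    exact Or.inl ⟨h i, h1⟩

end

end Per

theorem C_LCA : Stmt_C_LCA := by
  intro Λ G H
  exact ⟨H.LC_zero, H.LC_one, fun f g hf hg => ⟨H.LC_add hf hg, fun D => H.sh_sh f g D⟩,
    fun f hf => H.LC_neg hf, fun D => H.sh_zero D, fun n f hf => H.LC_nsmul n hf,
    fun i hi => H.one_of_not_iso i hi, fun i n => H.s_add_mul i n,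
    fun h D => H.tr_eq_sh_one h D⟩

end Pool.CS
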